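import Pool.Agent.V11109.Free.VacPure

/-!
# `O_∞` is not absorbed by infinite reduced free powers in a state preserving way

The free product state of pure states is pure, hence multiplicative on its centralizer. But for
a state `ω` on `O_∞` with a nontrivial centralizer the free product state of `ω` with any other
state is not multiplicative on its centralizer.
-/

set_option autoImplicit false

namespace Pool.Agent.Results.MP_123484_an.NoStatePreservingIso

open Pool.Agent.V11109.Free Pool.Agent.V11109.Conj Pool.Agent.V11109.Fock Pool.Agent.V11109.PureExt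

/-- Let `A` be the Cuntz algebra `O_∞`. There are a separable, simple, purely infinite unital
C*-algebra `C` with a state `σ` and a state `ω` on `A` such that for the reduced free product
`(D, ρ)` of countably many copies of `(C, σ)` and the reduced free product `(E, θ)` of `(A, ω)` and
`(D, ρ)` there is no *-isomorphism `Φ : E → D` with `ρ ∘ Φ = θ`. (These reduced free products exist
and the statement holds for all models of them.) -/
theorem result : ∀ (A : Type) [CStarAlgebra A] (s : ℕ → A), IsCuntzInfty s →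
    ∃ (C : Type) (_ : CStarAlgebra C) (σ : C →ₗ[ℂ] ℂ) (ω : A →ₗ[ℂ] ℂ),
    TopologicalSpace.SeparableSpace C ∧ IsSimpleRing C ∧ IsPurelyInfinite C ∧ IsState σ ∧
    IsState ω ∧
    (∃ (D : Type) (_ : CStarAlgebra D) (ρ : D →ₗ[ℂ] ℂ) (e : ℕ → C →⋆ₐ[ℂ] D),
      IsReducedFreeProd (fun _ => C) (fun _ => σ) ρ e) ∧
    ∀ (D : Type) [CStarAlgebra D] (ρ : D →ₗ[ℂ] ℂ) (e : ℕ → C →⋆ₐ[ℂ] D),
      IsReducedFreeProd (fun _ => C) (fun _ => σ) ρ e →
      (∃ (E : Type) (_ : CStarAlgebra E) (θ : E →ₗ[ℂ] ℂ) (i : A →⋆ₐ[ℂ] E)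
        (j : D →⋆ₐ[ℂ] E), IsReducedFreeProd₂ ω ρ θ i j) ∧
      ∀ (E : Type) [CStarAlgebra E] (θ : E →ₗ[ℂ] ℂ) (i : A →⋆ₐ[ℂ] E)
        (j : D →⋆ₐ[ℂ] E), IsReducedFreeProd₂ ω ρ θ i j →
        ¬ ∃ Φ : E ≃⋆ₐ[ℂ] D, ∀ x, ρ (Φ x) = θ x := by
  intro A _ s hs
  obtain ⟨-, ω, -, hω, -, b, hb, hne⟩ := exists_states hs
  refine ⟨O ℕ, inferInstance, vacL, ω, separable_O, simple_O, pureInf_O, vacL_state, hω,
    exists_rfp (fun _ : ℕ => O ℕ) (fun _ => vacL) (fun _ => vacL_state), ?_⟩
  intro D _ ρ e h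
  refine ⟨exists_rfp₂ hω h.state, ?_⟩
  rintro E _ θ i j hE ⟨Φ, hΦ⟩
  have hp : PureLike vacL := pureLike_of_cuntz dense_mon vacL_state vacL_S
  have hρ : PureLike ρ := pureLike_free h (fun _ => hp)
  refine no_iso h.state hρ (centralizer_two hE hb) ?_ Φ hΦ
  rw [← map_star, ← map_mul, hE.left, hE.left]
  exact hne

end Pool.Agent.Results.MP_123484_an.NoStatePreservingIso
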